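import Pool.Agent.Helper94.PQ.StmtsT

/-!
# The theorem of Hasse and Arf for cyclic `2`-groups (row HAC)
-/

set_option autoImplicit false

open scoped Classical

namespace PQ28

open PQ Pool.Agent.Helper13.Swan

lemma sum_even_odd (h : ℕ → ℤ) (n : ℕ) :
    ∑ m ∈ Finset.range (2 * n), h m = ∑ m ∈ Finset.range n, (h (2 * m) + h (2 * m + 1)) := by
  induction n with
  | zero => simp
  | succ n ih =>
    rw [show 2 * (n + 1) = 2 * n + 1 + 1 by ring, Finset.sum_range_succ, Finset.sum_range_succ, ih,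
      Finset.sum_range_succ]
    ring

/-- a sum over the residues modulo `2 ^ K` of a function of the valuation -/
lemma sum_val (K : ℕ) : ∀ (h J : ℕ → ℤ), h 0 = 0 →
    (∀ v u, v < K → Odd u → h (2 ^ v * u) = J v) →
    ∑ m ∈ Finset.range (2 ^ K), h m = ∑ i ∈ Finset.range K, 2 ^ (K - 1 - i) * J i := by
  induction K with
  | zero =>
    intro h J h0 _
    simp [h0]
  | succ K ih =>
    intro h J h0 hJ
    rw [show 2 ^ (K + 1) = 2 * 2 ^ K by ring, sum_even_odd, Finset.sum_add_distrib]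
    have h1 : ∑ m ∈ Finset.range (2 ^ K), h (2 * m + 1) = 2 ^ K * J 0 := by
      rw [Finset.sum_congr rfl (fun m _ => ?_), Finset.sum_const, Finset.card_range,
        nsmul_eq_mul]
      · push_cast
        rfl
      · have := hJ 0 (2 * m + 1) (by omega) ⟨m, rfl⟩
        rw [pow_zero, one_mul] at this
        exact this
    have h2 := ih (fun m => h (2 * m)) (fun i => J (i + 1)) (by simpa using h0)
      (fun v u hv hu => by
        have := hJ (v + 1) u (by omega) hu
        rw [pow_succ', mul_assoc] at this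
        exact this)
    rw [h1, h2, Finset.sum_range_succ']
    congr 1
    refine Finset.sum_congr rfl fun i hi => ?_
    rw [Finset.mem_range] at hi
    congr 2
    omega

variable {Ω P : Type} [Field Ω] [Group P] [MulSemiringAction P Ω] [Fintype P]

lemma sum_cyc (a : P) (n : ℕ) (hn : orderOf a = n) (hg : ∀ g : P, g ∈ Subgroup.zpowers a)
    (f : P → ℤ) : ∑ g : P, f g = ∑ m ∈ Finset.range n, f (a ^ m) := by
  symm
  subst hn
  refine Finset.sum_bij (fun m _ => a ^ m) (fun _ _ => Finset.mem_univ _) ?_ ?_ (fun _ _ => rfl)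
  · intro m hm m' hm' h
    rw [Finset.mem_range] at hm hm'
    exact pow_injOn_Iio_orderOf hm hm' h
  · intro g _
    have hg' := hg g
    rw [← mem_powers_iff_mem_zpowers, mem_powers_iff_mem_range_orderOf,
      Finset.mem_image] at hg'
    obtain ⟨m, hm, rfl⟩ := hg'
    exact ⟨m, hm, rfl⟩

lemma w_nm {w : Valuation Ω (WithZero (Multiplicative ℤ))} {π : Ω} (hB : Base P w π)
    (H : Subgroup P) : w (nm H π) = ex (Nat.card H) := by
  have h1 : ∀ τ : H, w ((τ : P) • π) = ex 1 := fun τ => (hB.inv _ _).trans hB.unif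
  rw [nm_def, map_prod]
  simp only [h1]
  rw [Finset.prod_const, ex_pow, Finset.card_univ, Nat.card_eq_fintype_card, mul_one]

theorem st_HAC (hM : ST_MISS) (hN : ST_NUM) (hD : ST_DSP) : ST_HAC := by
  intro Ω P _ _ _ _ _ w π hB a k ha hgen
  obtain ⟨d1, d2, d3, d4, d5, d6⟩ := hD Ω P w π hB
  have hcomm : ∀ x y : P, x * y = y * x := by
    intro x y
    obtain ⟨m, rfl⟩ := Subgroup.mem_zpowers_iff.1 (hgen x)
    obtain ⟨n, rfl⟩ := Subgroup.mem_zpowers_iff.1 (hgen y)
    rw [← zpow_add, ← zpow_add, add_comm]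
  -- displacements of the powers
  have hI : ∀ v u : ℕ, Odd u → dI w π (a ^ (2 ^ v * u)) = dI w π (a ^ 2 ^ v) := by
    intro v u hu
    rw [pow_mul]
    refine d5 _ u ?_
    have h1 : orderOf (a ^ 2 ^ v) ∣ 2 ^ (k + 1) := by
      rw [← ha]
      exact orderOf_pow_dvd _
    exact Nat.Coprime.coprime_dvd_right h1 (Nat.Coprime.pow_right _ (Nat.coprime_two_right.2 hu))
  have hcardP : Nat.card P = 2 ^ (k + 1) := by
    rw [← ha]
    exact (orderOf_eq_card_of_forall_mem_zpowers hgen).symm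
  -- the whole sum
  have htot : ∑ g : P, dI w π g = ∑ i ∈ Finset.range (k + 1),
      2 ^ (k + 1 - 1 - i) * dI w π (a ^ 2 ^ i) := by
    rw [sum_cyc a (2 ^ (k + 1)) ha hgen]
    exact sum_val (k + 1) (fun m => dI w π (a ^ m)) (fun i => dI w π (a ^ 2 ^ i))
      (by simpa using d1) (fun v u _ hu => hI v u hu)
  have hnum := hN (k + 1) (fun v => dI w π (a ^ 2 ^ v)) ?_ (k + 1) (by omega) le_rfl
  · rw [htot]
    simpa using hnum
  intro j hj1 hj2 v l hv hl hdvd
  -- the subgroup
  set H : Subgroup P := Subgroup.zpowers (a ^ 2 ^ j) with hH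
  have hord : orderOf (a ^ 2 ^ j) = 2 ^ (k + 1 - j) := by
    rw [orderOf_pow' a (by positivity), ha, Nat.gcd_eq_right (Nat.pow_dvd_pow 2 hj2),
      Nat.pow_div hj2 (by norm_num)]
  have hcardH : Nat.card H = 2 ^ (k + 1 - j) := by
    rw [hH, Nat.card_zpowers, hord]
  have hmem : ∀ m : ℕ, a ^ m ∈ H ↔ 2 ^ j ∣ m := by
    intro m
    constructor
    · intro h
      rw [hH, ← mem_powers_iff_mem_zpowers, Submonoid.mem_powers_iff] at h
      obtain ⟨t, ht⟩ := h
      rw [← pow_mul, pow_eq_pow_iff_modEq, ha] at ht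
      have h1 : 2 ^ j * t ≡ m [MOD 2 ^ j] := ht.of_dvd (Nat.pow_dvd_pow 2 hj2)
      exact (Nat.modEq_zero_iff_dvd.1 ((h1.symm).trans
        (Nat.modEq_zero_iff_dvd.2 (Dvd.intro _ rfl))))
    · rintro ⟨t, rfl⟩
      rw [pow_mul]
      exact Subgroup.pow_mem _ (Subgroup.mem_zpowers _) _
  -- the sum outside of H
  have hout : ∑ g : P, (if g ∈ H then 0 else dI w π g) = 2 ^ (k + 1 - j) *
      ∑ i ∈ Finset.range j, 2 ^ (j - 1 - i) * dI w π (a ^ 2 ^ i) := by
    rw [sum_cyc a (2 ^ (k + 1)) ha hgen]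
    have h1 := sum_val (k + 1) (fun m => if a ^ m ∈ H then 0 else dI w π (a ^ m))
      (fun i => if i < j then dI w π (a ^ 2 ^ i) else 0) (by simp)
      (fun v u _ hu => by
        have hiff : a ^ (2 ^ v * u) ∈ H ↔ ¬ v < j := by
          rw [hmem]
          constructor
          · intro h hvj
            have h2 : 2 ^ (v + 1) ∣ 2 ^ v * u := (Nat.pow_dvd_pow 2 hvj).trans h
            rw [pow_succ] at h2
            have h3 := Nat.dvd_of_mul_dvd_mul_left (by positivity) h2
            rw [Nat.odd_iff] at hu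
            omega
          · intro h
            exact Dvd.dvd.mul_right (Nat.pow_dvd_pow 2 (not_lt.1 h)) _
        by_cases hvj : v < j
        · rw [if_neg (by rw [hiff]; simpa using hvj), if_pos hvj]
          exact hI v u hu
        · rw [if_pos (hiff.2 hvj), if_neg hvj])
    rw [h1, Finset.mul_sum]
    have h2 : Finset.range j ⊆ Finset.range (k + 1) := Finset.range_subset_range.2 hj2
    rw [← Finset.sum_subset h2]
    · refine Finset.sum_congr rfl fun i hi => ?_
      rw [Finset.mem_range] at hi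
      rw [if_pos hi, ← mul_assoc, ← pow_add]
      congr 2
      omega
    · intro i _ hi
      rw [Finset.mem_range] at hi
      rw [if_neg hi, mul_zero]
  -- the element
  set ν := nm H π with hν
  have hνw : w ν = ex (Nat.card H) := w_nm hB H
  have hνf : Fx H ν := nm_fixed H π
  set L := 2 ^ v * l with hL
  have hL1 : 1 ≤ L := by
    have : 0 < l := hl.pos
    have : 0 < 2 ^ v * l := by positivity
    omega
  obtain ⟨M, hM1⟩ : ∃ M, L = M + 1 := ⟨L - 1, by omega⟩
  set Y := ∏ i ∈ Finset.range L, a ^ i • ν with hY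
  have hYf : ∀ τ ∈ H, τ • Y = Y := by
    intro τ hτ
    rw [hY, Finset.smul_prod']
    refine Finset.prod_congr rfl fun i _ => ?_
    rw [← mul_smul, hcomm, mul_smul, hνf τ hτ]
  have hy : a • Y - Y = (∏ i ∈ Finset.range M, a ^ (i + 1) • ν) * (a ^ L • ν - ν) := by
    have e1 : a • Y = (∏ i ∈ Finset.range M, a ^ (i + 1) • ν) * a ^ L • ν := by
      rw [hY, Finset.smul_prod', hM1, Finset.prod_range_succ]
      congr 1
      · exact Finset.prod_congr rfl fun i _ => by rw [← mul_smul, ← pow_succ']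
      · rw [← mul_smul, ← pow_succ']
    have e2 : Y = (∏ i ∈ Finset.range M, a ^ (i + 1) • ν) * ν := by
      rw [hY, hM1, Finset.prod_range_succ', pow_zero, one_smul]
    rw [e1]
    nth_rewrite 1 [e2]
    ring
  have hLH : a ^ L ∉ H := by
    rw [hmem]
    intro h
    have h2 : 2 ^ (v + 1) ∣ 2 ^ v * l := (Nat.pow_dvd_pow 2 hv).trans h
    rw [pow_succ] at h2
    have h3 := Nat.dvd_of_mul_dvd_mul_left (by positivity) h2
    rw [Nat.odd_iff] at hl
    omega
  have hwd : w (a ^ L • ν - ν) = ex (Nat.card H * dI w π (a ^ 2 ^ v)) := by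
    rw [hν, d6 H (a ^ L) hLH]
    congr 1
    have h1 : ∀ h : H, dI w π (a ^ L * h) = dI w π (a ^ 2 ^ v) := by
      rintro ⟨h, hh⟩
      rw [hH, ← mem_powers_iff_mem_zpowers, Submonoid.mem_powers_iff] at hh
      obtain ⟨t, rfl⟩ := hh
      have h2 : a ^ L * (a ^ 2 ^ j) ^ t = a ^ (2 ^ v * (l + 2 ^ (j - v) * t)) := by
        rw [← pow_mul, ← pow_add, hL, mul_add, ← mul_assoc, ← pow_add,
          Nat.add_sub_cancel' hv.le]
      show dI w π (a ^ L * (a ^ 2 ^ j) ^ t) = _
      rw [h2]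
      refine hI v _ (hl.add_even ?_)
      refine Even.mul_right ?_ _
      rw [Nat.even_pow]
      exact ⟨even_two, by omega⟩
    rw [Finset.sum_congr rfl (fun h _ => h1 h), Finset.sum_const, nsmul_eq_mul, Finset.card_univ,
      Nat.card_eq_fintype_card]
  have hwy : w (a • Y - Y) = ex (M * Nat.card H + Nat.card H * dI w π (a ^ 2 ^ v)) := by
    rw [hy, map_mul, map_prod, hwd, ex_add,
      Finset.prod_congr rfl (fun i _ => (hB.inv (a ^ (i + 1)) ν).trans hνw), Finset.prod_const,
      Finset.card_range, ex_pow]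
  have hy0 : a • Y - Y ≠ 0 := by
    intro h
    rw [h, map_zero] at hwy
    exact ex_ne_zero _ hwy.symm
  have hfx : Fx H (a • Y - Y) := by
    intro τ hτ
    rw [smul_sub, hYf τ hτ, ← mul_smul, hcomm, mul_smul, hYf τ hτ]
  obtain ⟨q, hq⟩ := hdvd
  refine hM Ω P w π hB H (a • Y - Y) hfx hy0 ⟨q, ?_⟩ ?_
  · rw [hwy]
    congr 1
    rw [hout, hcardP, hcardH]
    have e3 : (L : ℤ) = M + 1 := by rw [hM1]; push_cast; ring
    have e4 : (L : ℤ) = 2 ^ v * l := by rw [hL]; push_cast; ring
    have e5 : ((2 ^ (k + 1) : ℕ) : ℤ) = ((2 ^ (k + 1 - j) : ℕ) : ℤ) * 2 ^ j := by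
      push_cast
      rw [← pow_add, Nat.sub_add_cancel hj2]
    rw [e5]
    have e6 : (M : ℤ) = 2 ^ v * l - 1 := by rw [← e4, e3]; ring
    rw [e6]
    push_cast
    have e7 : (2 : ℤ) ^ j * q = 2 ^ v * l + dI w π (a ^ 2 ^ v) +
      ∑ i ∈ Finset.range j, 2 ^ (j - 1 - i) * dI w π (a ^ 2 ^ i) := hq.symm
    rw [mul_assoc ((2 : ℤ) ^ (k + 1 - j)), e7]
    ring
  · have h1 : ∀ c : P ⧸ H, (Quotient.out c : P) • (a • Y) = (Quotient.out (a • c) : P) • Y := by
      intro c
      have h2 : (QuotientGroup.mk (Quotient.out (a • c) : P) : P ⧸ H) =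
          QuotientGroup.mk (a * Quotient.out c) := by
        rw [QuotientGroup.out_eq']
        conv_lhs => rw [← QuotientGroup.out_eq' c]
        rfl
      rw [QuotientGroup.eq] at h2
      have h3 := hYf _ h2
      have h4 : (Quotient.out (a • c) : P) • Y = (a * Quotient.out c) • Y := by
        conv_lhs => rw [← h3]
        rw [← mul_smul, mul_inv_cancel_left]
      rw [h4, ← mul_smul, hcomm]
    simp only [smul_sub, Finset.sum_sub_distrib]
    rw [sub_eq_zero, Finset.sum_congr rfl (fun c _ => h1 c)]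
    exact Equiv.sum_comp (MulAction.toPerm a : Equiv.Perm (P ⧸ H))
      (fun c => (Quotient.out c : P) • Y)

end PQ28
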